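import Mathlib
import Pool.Agent.H.MP_eccde5_an.A

open Set Filter Topology Complex Metric
open scoped ComplexConjugate

namespace Pool.Agent.Results.MP_eccde5_an.Sharp

open H.MP_eccde5_an

/-- The family `N_A`, `A = diag(l, 1)`. -/
def N (l : ℝ) : Set (EuclideanSpace ℂ (Fin 2) → EuclideanSpace ℂ (Fin 2)) :=
  {h | DifferentiableOn ℂ h (ball 0 1) ∧ h 0 = 0 ∧ (∀ v, fderiv ℂ h 0 v = !₂[l * v 0, v 1]) ∧
    ∀ z ∈ ball (0 : EuclideanSpace ℂ (Fin 2)) 1, z ≠ 0 → 0 < (inner ℂ z (h z)).re}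

/-- Coefficient of `z_j ^ k` in the `i`-th component of `h`. -/
noncomputable def coef (h : EuclideanSpace ℂ (Fin 2) → EuclideanSpace ℂ (Fin 2)) (i j : Fin 2)
    (k : ℕ) : ℂ :=
  iteratedDeriv k (fun w : ℂ => h (EuclideanSpace.single j w) i) 0 / k.factorial

lemma gen {l α β : ℝ} {i j : Fin 2} (hij : i ≠ j) {k : ℕ} (hk : 2 ≤ k) (hα : 0 < α) (hβ : 0 < β)
    (hA : ∀ v : E, !₂[l * v 0, v 1] = (α * v i) • e i + (β * v j) • e j) :
    IsGreatest ((fun h => ‖coef h i j k‖) '' N l) (bound α β k) := by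
  obtain ⟨B0, ⟨x, y, x0, y0, xy, eq⟩, le⟩ := minb hα hβ hk
  set B := bound α β k
  have k0 : k ≠ 0 := by omega
  obtain ⟨n, rfl⟩ : ∃ n, k = n + 2 := ⟨k - 2, by omega⟩
  constructor
  · refine ⟨fun z => (α * z i + B * z j ^ (n + 2)) • e i + (β * z j) • e j,
      ⟨by fun_prop, by simp, fun v => ?_, fun z hz z0 => ?_⟩, ?_⟩
    · have p := fun l => (EuclideanSpace.proj (𝕜 := ℂ) (l : Fin 2)).hasFDerivAt (x := 0)
      have := (((((p i).const_mul (α : ℂ)).add (((p j).pow (n + 2)).const_mul (B : ℂ))).smul_const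
        (e i)).add (((p j).const_mul (β : ℂ)).smul_const (e j))).fderiv
      refine (congrArg (· v) this).trans ?_
      simp [hA]
    · rw [mem_ball_zero_iff] at hz
      have r0 := norm_pos_iff.2 z0
      have ns := nsq hij z
      have l1 := le (‖z i‖ / ‖z‖) (‖z j‖ / ‖z‖) (by positivity) (by positivity)
        (by field_simp; linarith)
      have l2 : B * (‖z i‖ * ‖z j‖ ^ (n + 2)) ≤ ‖z‖ ^ (n + 1) * (α * ‖z i‖ ^ 2 + β * ‖z j‖ ^ 2) := by
        simp only [div_pow] at l1
        field_simp at l1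
        refine le_of_mul_le_mul_left (a := ‖z‖) ?_ r0
        exact le_of_eq_of_le (by ring) (l1.trans_eq (by ring))
      have l3 : 0 < α * ‖z i‖ ^ 2 + β * ‖z j‖ ^ 2 := by
        have := lt_min hα hβ
        nlinarith [min_le_left α β, min_le_right α β, sq_nonneg ‖z i‖, sq_nonneg ‖z j‖,
          mul_pos this (pow_pos r0 2)]
      have l4 := mul_lt_of_lt_one_left l3 (pow_lt_one₀ r0.le hz n.succ_ne_zero)
      have l5 := (abs_le.1 (abs_re_le_norm (B * z j ^ (n + 2) * (starRingEnd ℂ) (z i)))).1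
      rw [norm_mul, norm_mul, norm_pow, norm_conj, norm_real, Real.norm_of_nonneg B0.le] at l5
      simp only [inner_add_right, inner_smul_right, EuclideanSpace.inner_single_right, one_mul,
        add_mul, mul_assoc (α : ℂ), mul_assoc (β : ℂ), mul_conj', add_re, ← ofReal_pow,
        ← ofReal_mul, ofReal_re]
      have k : ∀ a b c : ℝ, -(B * b ^ (n + 2) * a) ≤ c → B * (a * b ^ (n + 2)) < α * a ^ 2 + β * b ^ 2 →
          0 < α * a ^ 2 + c + β * b ^ 2 := fun a b c h1 h2 => by linarith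
      exact k _ _ _ l5 (l2.trans_lt l4)
    · have : (fun w : ℂ => (((α : ℂ) * (EuclideanSpace.single j w : E) i + B *
          (EuclideanSpace.single j w : E) j ^ (n + 2)) • e i +
          (β * (EuclideanSpace.single j w : E) j) • e j) i) = fun w : ℂ => B * w ^ (n + 2) := by
        ext w; simp [hij]
      simp only [coef, this]
      rw [iteratedDeriv_const_mul_field, iteratedDeriv_pow, Nat.descFactorial_self]
      simp [(n + 2).factorial_ne_zero, B0.le]
  · rintro _ ⟨h, ⟨hd, h0, hD, hp⟩, rfl⟩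
    obtain ⟨c, c1, hc⟩ := exists_norm_eq_mul_self (coef h i j (n + 2))
    have key : ∀ r ∈ Ioo (0 : ℝ) 1, r ^ (n + 1) * ‖coef h i j (n + 2)‖ ≤ B := fun r hr => by
      have r0 := hr.1
      have na : ‖-((r * x : ℝ) * conj c)‖ = r * x := by simp [c1, abs_of_pos, r0, x0]
      have nb : ‖((r * y : ℝ) : ℂ)‖ = r * y := by simp [abs_of_pos, r0, y0]
      have := shear hij hk hd h0 (α := α) (β := β) (by rw [hD, hA]; simp [hij])
        (by rw [hD, hA]; simp [hij]) hp
        (a := -((r * x : ℝ) * conj c)) (b := (r * y : ℝ))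
        (by
          rw [na, nb, mul_pow, mul_pow, ← mul_add, xy, mul_one]
          exact pow_lt_one₀ r0.le hr.2 two_ne_zero)
      rw [na, nb, map_neg, map_mul, conj_conj, conj_ofReal, ← coef, neg_mul, mul_assoc,
        mul_left_comm c, ← hc, ← ofReal_pow, ← ofReal_mul, ← ofReal_mul, neg_re, ofReal_re] at this
      refine le_of_mul_le_mul_left (a := r ^ 2 * (x * y ^ (n + 2))) ?_ (by positivity)
      calc _ = r * x * ((r * y) ^ (n + 2) * ‖coef h i j (n + 2)‖) := by ring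
        _ ≤ α * (r * x) ^ 2 + β * (r * y) ^ 2 := by linarith
        _ = _ := by linear_combination r ^ 2 * eq
    have t : Tendsto (fun r : ℝ => r ^ (n + 1) * ‖coef h i j (n + 2)‖) (𝓝[<] 1)
        (𝓝 ‖coef h i j (n + 2)‖) :=
      (Continuous.tendsto' (by fun_prop) _ _ (by simp)).mono_left nhdsWithin_le_nhds
    exact le_of_tendsto t (mem_of_superset (Ioo_mem_nhdsLT one_pos) key)

theorem result (l : ℝ) (h1 : 1 ≤ l) (_h2 : l < 2) (k : ℕ) (hk : 2 ≤ k) :
    IsGreatest ((fun h => ‖coef h 0 1 k‖) '' N l) (bound l 1 k) ∧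
    IsGreatest ((fun h => ‖coef h 1 0 k‖) '' N l) (bound 1 l k) :=
  ⟨gen (by simp) hk (by linarith) one_pos fun v => by ext i; fin_cases i <;> simp,
    gen (by simp) hk one_pos (by linarith) fun v => by ext i; fin_cases i <;> simp⟩

end Pool.Agent.Results.MP_eccde5_an.Sharp
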